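import Mathlib

/-!
Gluing by a contraction: the general existence lemma.
-/

namespace Pool.Agent.Lib.helper47.CommutingScheme

open Set Function

variable {X : Type*} [MetricSpace X] [CompactSpace X] {ι κ : Type*} [Finite ι] [Finite κ]

/-- On `B` the map `g` is `g0`, on `A i` it is `x ↦ φ i (g (f0 x))`. -/
theorem exists_glue (A : ι → Set X) (B : κ → Set X) (hA : ∀ i, IsClosed (A i))
    (hB : ∀ j, IsClosed (B j)) (hcov : ∀ x, (∃ i, x ∈ A i) ∨ ∃ j, x ∈ B j)
    (hdisj : ∀ i i' x, x ∈ A i → x ∈ A i' → i = i') (f0 g0 : C(X, X)) (φ : ι → X → X)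
    (K : NNReal) (hK : K < 1) (hφ : ∀ i, LipschitzWith K (φ i))
    (h1 : ∀ i j x, x ∈ A i → x ∈ B j → ∃ j', f0 x ∈ B j')
    (h2 : ∀ i j x, x ∈ A i → x ∈ B j → φ i (g0 (f0 x)) = g0 x) :
    ∃ g : C(X, X), (∀ j, ∀ x ∈ B j, g x = g0 x) ∧ ∀ i, ∀ x ∈ A i, g x = φ i (g (f0 x)) := by
  classical
  by_cases hX : Nonempty X
  swap
  · exact ⟨g0, fun j x _ => absurd ⟨x⟩ hX, fun i x _ => absurd ⟨x⟩ hX⟩
  let BB : Set X := ⋃ j, B j
  have hBB : IsClosed BB := isClosed_iUnion_of_finite hB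
  -- the operator
  let T : C(X, X) → X → X := fun g x =>
    if x ∈ BB then g0 x else if h : ∃ i, x ∈ A i then φ h.choose (g (f0 x)) else x
  have TB : ∀ g x, x ∈ BB → T g x = g0 x := fun g x hx => if_pos hx
  have TA : ∀ g : C(X, X), (∀ x ∈ BB, g x = g0 x) → ∀ i, ∀ x ∈ A i, T g x = φ i (g (f0 x)) := by
    intro g hg i x hx
    by_cases hxB : x ∈ BB
    · obtain ⟨j, hj⟩ := mem_iUnion.1 hxB
      obtain ⟨j', hj'⟩ := h1 i j x hx hj
      rw [TB g x hxB, hg (f0 x) (mem_iUnion.2 ⟨j', hj'⟩), h2 i j x hx hj]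
    · have h : ∃ i, x ∈ A i := ⟨i, hx⟩
      simp only [T]
      rw [if_neg hxB, dif_pos h, hdisj _ _ x h.choose_spec hx]
  have TC : ∀ g : C(X, X), (∀ x ∈ BB, g x = g0 x) → Continuous (T g) := by
    intro g hg
    let cov : Option ι → Set X := fun o => o.elim BB A
    refine LocallyFinite.continuous (f := cov) (locallyFinite_of_finite _) ?_ ?_ ?_
    · rw [eq_univ_iff_forall]
      intro x
      rcases hcov x with ⟨i, hi⟩ | ⟨j, hj⟩
      · exact mem_iUnion.2 ⟨some i, hi⟩
      · exact mem_iUnion.2 ⟨none, mem_iUnion.2 ⟨j, hj⟩⟩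
    · intro o
      cases o with
      | none => exact hBB
      | some i => exact hA i
    · intro o
      cases o with
      | none => exact g0.continuous.continuousOn.congr fun x hx => TB g x hx
      | some i =>
        exact (((hφ i).continuous.comp (g.continuous.comp f0.continuous)).continuousOn).congr
          fun x hx => TA g hg i x hx
  -- the complete space
  let D : Set C(X, X) := {g | ∀ x ∈ BB, g x = g0 x}
  have hD : IsClosed D := by
    have : D = ⋂ x ∈ BB, {g : C(X, X) | g x = g0 x} := by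
      ext g
      simp [D]
    rw [this]
    refine isClosed_biInter fun x _ => isClosed_eq (continuous_eval_const x)
      continuous_const
  let Φ : D → D := fun g => ⟨⟨T g.1, TC g.1 g.2⟩, fun x hx => TB g.1 x hx⟩
  have : CompleteSpace D := hD.completeSpace_coe
  have : Nonempty D := ⟨⟨g0, fun x _ => rfl⟩⟩
  have hΦ : ContractingWith K Φ := by
    refine ⟨hK, LipschitzWith.of_dist_le_mul fun g g' => ?_⟩
    change dist (⟨T g.1, TC g.1 g.2⟩ : C(X, X)) ⟨T g'.1, TC g'.1 g'.2⟩ ≤ K * dist g.1 g'.1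
    rw [ContinuousMap.dist_le (by positivity)]
    intro x
    change dist (T g.1 x) (T g'.1 x) ≤ _
    by_cases hxB : x ∈ BB
    · rw [TB _ x hxB, TB _ x hxB, dist_self]
      positivity
    · rcases hcov x with ⟨i, hi⟩ | ⟨j, hj⟩
      · rw [TA g.1 g.2 i x hi, TA g'.1 g'.2 i x hi]
        refine ((hφ i).dist_le_mul _ _).trans ?_
        gcongr
        exact ContinuousMap.dist_apply_le_dist _
      · exact absurd (mem_iUnion.2 ⟨j, hj⟩) hxB
  let g := hΦ.fixedPoint
  have hg : Φ g = g := hΦ.fixedPoint_isFixedPt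
  have hgT : ∀ x, T g.1 x = g.1 x := fun x => congrArg (fun h : D => h.1 x) hg
  refine ⟨g.1, fun j x hx => g.2 x (mem_iUnion.2 ⟨j, hx⟩), fun i x hx => ?_⟩
  rw [← hgT x]
  exact TA g.1 g.2 i x hx

end Pool.Agent.Lib.helper47.CommutingScheme
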