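import Pool.Agent.Lib.helper47.CommutingScheme

/-!
Commuting maps all of whose common periodic points have a period divisible by a given number.
-/

namespace Pool.Agent.Lib.helper47.NoBoundOnPeriods

open Set Function Pool.Agent.Lib.helper47.CommutingScheme

noncomputable section

/-- lap from 0 to 1 over `[1/3, 2/3]`, zero outside `[1/3, 1]` -/
def tent (t : ℝ) : ℝ := max 0 (1 - 3 * |t - 2 / 3|)

/-- equal to 1 on `[0, 1]`, zero outside `[-1/3, 4/3]` -/
def bump (t : ℝ) : ℝ := max 0 (min 1 (min (3 * t + 1) (4 - 3 * t)))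

theorem tent_zero {t : ℝ} (h : t ≤ 1 / 3 ∨ 1 ≤ t) : tent t = 0 := by
  unfold tent
  apply max_eq_left
  rcases h with h | h
  · have := neg_abs_le (t - 2 / 3)
    linarith
  · have := le_abs_self (t - 2 / 3)
    linarith

theorem tent_lap {t : ℝ} (h1 : 1 / 3 ≤ t) (h2 : t ≤ 2 / 3) : tent t = 3 * t - 1 := by
  unfold tent
  rw [abs_of_nonpos (by linarith), max_eq_right (by linarith)]
  ring

theorem bump_zero {t : ℝ} (h : t ≤ -(1 / 3) ∨ 4 / 3 ≤ t) : bump t = 0 := by
  unfold bump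
  apply max_eq_left
  rcases h with h | h
  · exact (min_le_right _ _).trans ((min_le_left _ _).trans (by linarith))
  · exact (min_le_right _ _).trans ((min_le_right _ _).trans (by linarith))

theorem bump_one {t : ℝ} (h1 : 0 ≤ t) (h2 : t ≤ 1) : bump t = 1 := by
  unfold bump
  rw [min_eq_left (le_min (by linarith) (by linarith)), max_eq_right zero_le_one]

/-- laps over `[2i+s+1/3, 2i+s+2/3]`, constants `v i` over `[2i+r, 2i+r+1]` -/
def H (M : ℕ) (s r : ℝ) (v : ℕ → ℝ) (x : ℝ) : ℝ :=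
  ∑ i ∈ Finset.range M, (2 * M * tent (x - 2 * i - s) + v i * bump (x - 2 * i - r))

theorem H_cont (M : ℕ) (s r : ℝ) (v : ℕ → ℝ) : Continuous (H M s r v) := by
  unfold H tent bump
  fun_prop

theorem cast_cases {i k : ℕ} (h : i ≠ k) : (i : ℝ) + 1 ≤ k ∨ (k : ℝ) + 1 ≤ i := by
  rcases lt_or_gt_of_ne h with h | h
  · left; exact_mod_cast h
  · right; exact_mod_cast h

theorem H_const {M : ℕ} {s r : ℝ} (hsr : (s = 0 ∧ r = 1) ∨ (s = 1 ∧ r = 0)) (v : ℕ → ℝ) {k : ℕ}
    (hk : k < M) {x : ℝ} (h1 : 2 * k + r ≤ x) (h2 : x ≤ 2 * k + r + 1) : H M s r v x = v k := by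
  unfold H
  rw [Finset.sum_eq_single k]
  · rw [tent_zero, bump_one, mul_zero, zero_add, mul_one]
    · linarith
    · linarith
    · rcases hsr with ⟨rfl, rfl⟩ | ⟨rfl, rfl⟩
      · right; linarith
      · left; linarith
  · intro i _ hik
    have ht : tent (x - 2 * i - s) = 0 := by
      apply tent_zero
      rcases cast_cases hik with h | h <;> rcases hsr with ⟨rfl, rfl⟩ | ⟨rfl, rfl⟩
      · right; linarith
      · right; linarith
      · left; linarith
      · left; linarith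
    have hb : bump (x - 2 * i - r) = 0 := by
      apply bump_zero
      rcases cast_cases hik with h | h
      · right; linarith
      · left; linarith
    rw [ht, hb, mul_zero, mul_zero, add_zero]
  · intro h
    exact absurd (Finset.mem_range.2 hk) h

theorem H_lap {M : ℕ} {s r : ℝ} (hsr : (s = 0 ∧ r = 1) ∨ (s = 1 ∧ r = 0)) (v : ℕ → ℝ) {k : ℕ}
    (hk : k < M) {x : ℝ} (h1 : 2 * k + s + 1 / 3 ≤ x) (h2 : x ≤ 2 * k + s + 2 / 3) :
    H M s r v x = 2 * M * (3 * (x - 2 * k - s) - 1) := by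
  unfold H
  rw [Finset.sum_eq_single k]
  · rw [tent_lap (by linarith) (by linarith), bump_zero, mul_zero, add_zero]
    rcases hsr with ⟨rfl, rfl⟩ | ⟨rfl, rfl⟩
    · left; linarith
    · right; linarith
  · intro i _ hik
    have ht : tent (x - 2 * i - s) = 0 := by
      apply tent_zero
      rcases cast_cases hik with h | h
      · right; linarith
      · left; linarith
    have hb : bump (x - 2 * i - r) = 0 := by
      apply bump_zero
      rcases cast_cases hik with h | h <;> rcases hsr with ⟨rfl, rfl⟩ | ⟨rfl, rfl⟩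
      · right; linarith
      · right; linarith
      · left; linarith
      · left; linarith
    rw [ht, hb, mul_zero, mul_zero, add_zero]
  · intro h
    exact absurd (Finset.mem_range.2 hk) h

variable {M : ℕ}

/-- the interval `[0, 2M]` -/
abbrev XX (M : ℕ) := Icc (0 : ℝ) (2 * M)

theorem L_nonneg (M : ℕ) : (0 : ℝ) ≤ 2 * M := by positivity

/-- the map given by `H` -/
def mapH (M : ℕ) (s r : ℝ) (v : ℕ → ℝ) : C(XX M, XX M) where
  toFun x := projIcc 0 (2 * M : ℝ) (L_nonneg M) (H M s r v x)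
  continuous_toFun := continuous_projIcc.comp ((H_cont M s r v).comp continuous_subtype_val)

/-- inverse branch of the full lap over `[2k+s+1/3, 2k+s+2/3]` -/
def branch (M : ℕ) (s : ℝ) (hs : s = 0 ∨ s = 1) (k : Fin M) (y : XX M) : XX M :=
  ⟨2 * k + s + 1 / 3 + y / (6 * M), by
    have hM : (0 : ℝ) < M := by
      have := k.pos
      exact_mod_cast this
    have hk : (k : ℝ) + 1 ≤ M := by exact_mod_cast k.2
    have h1 : 0 ≤ (y : ℝ) / (6 * M) := div_nonneg y.2.1 (by positivity)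
    have h2 : (y : ℝ) / (6 * M) ≤ 1 / 3 := by
      rw [div_le_iff₀ (by positivity)]
      linarith [y.2.2]
    have h3 : (0 : ℝ) ≤ k := Nat.cast_nonneg _
    rcases hs with rfl | rfl
    · constructor <;> linarith
    · constructor <;> linarith⟩

theorem branch_val (s : ℝ) (hs : s = 0 ∨ s = 1) (k : Fin M) (y : XX M) :
    (branch M s hs k y : ℝ) = 2 * k + s + 1 / 3 + y / (6 * M) := rfl

theorem branch_bounds (s : ℝ) (hs : s = 0 ∨ s = 1) (k : Fin M) (y : XX M) :
    2 * k + s + 1 / 3 ≤ (branch M s hs k y : ℝ) ∧ (branch M s hs k y : ℝ) ≤ 2 * k + s + 2 / 3 := by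
  have hM : (0 : ℝ) < M := by
    have := k.pos
    exact_mod_cast this
  have h1 : 0 ≤ (y : ℝ) / (6 * M) := div_nonneg y.2.1 (by positivity)
  have h2 : (y : ℝ) / (6 * M) ≤ 1 / 3 := by
    rw [div_le_iff₀ (by positivity)]
    linarith [y.2.2]
  rw [branch_val]
  constructor <;> linarith

theorem branch_lip (s : ℝ) (hs : s = 0 ∨ s = 1) (k : Fin M) :
    LipschitzWith (1 / 6) (branch M s hs k) := by
  have hM : (1 : ℝ) ≤ M := by
    have := k.pos
    exact_mod_cast this
  apply LipschitzWith.of_dist_le_mul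
  intro y y'
  rw [Subtype.dist_eq, Real.dist_eq, branch_val, branch_val]
  have h : 2 * (k : ℝ) + s + 1 / 3 + y / (6 * M) - (2 * k + s + 1 / 3 + y' / (6 * M)) =
      1 / (6 * M) * ((y : ℝ) - y') := by
    field_simp
    ring
  rw [h, abs_mul, abs_of_pos (by positivity)]
  have h2 : (1 : ℝ) / (6 * M) ≤ 1 / 6 := by
    apply div_le_div_of_nonneg_left zero_le_one (by norm_num)
    linarith
  have h3 : ((1 / 6 : NNReal) : ℝ) = 1 / 6 := by simp
  rw [h3, Subtype.dist_eq, Real.dist_eq]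
  gcongr

theorem mapH_branch {s r : ℝ} (hsr : (s = 0 ∧ r = 1) ∨ (s = 1 ∧ r = 0)) (hs : s = 0 ∨ s = 1)
    (v : ℕ → ℝ) (k : Fin M) (y : XX M) : mapH M s r v (branch M s hs k y) = y := by
  have hM : (0 : ℝ) < M := by
    have := k.pos
    exact_mod_cast this
  have hb := branch_bounds s hs k y
  apply Subtype.ext
  change (projIcc 0 (2 * M : ℝ) (L_nonneg M) (H M s r v (branch M s hs k y)) : ℝ) = y
  rw [H_lap hsr v k.2 hb.1 hb.2]
  have h : 2 * (M : ℝ) * (3 * ((branch M s hs k y : ℝ) - 2 * k - s) - 1) = y := by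
    rw [branch_val]
    field_simp
    ring
  rw [h, projIcc_of_mem (L_nonneg M) y.2]

/-- the blocks -/
def block (M : ℕ) (r : ℝ) (k : Fin M) : Set (XX M) := {x | 2 * k + r ≤ (x : ℝ) ∧ (x : ℝ) ≤ 2 * k + r + 1}

theorem block_closed (r : ℝ) (k : Fin M) : IsClosed (block M r k) :=
  (isClosed_le continuous_const continuous_subtype_val).inter
    (isClosed_le continuous_subtype_val continuous_const)

theorem mapH_block {s r : ℝ} (hsr : (s = 0 ∧ r = 1) ∨ (s = 1 ∧ r = 0)) (v : ℕ → ℝ) (k : Fin M)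
    (y : XX M) (hv : v k = y) {x : XX M} (hx : x ∈ block M r k) : mapH M s r v x = y := by
  apply Subtype.ext
  change (projIcc 0 (2 * M : ℝ) (L_nonneg M) (H M s r v x) : ℝ) = y
  rw [H_const hsr v k.2 hx.1 hx.2, hv, projIcc_of_mem (L_nonneg M) y.2]

theorem block_cover (hM : 0 < M) (x : XX M) :
    (∃ i, x ∈ block M 0 i) ∨ ∃ j, x ∈ block M 1 j := by
  have hx0 : 0 ≤ (x : ℝ) / 2 := by
    have := x.2.1
    positivity
  have h1 := Nat.floor_le hx0
  have h2 := Nat.lt_floor_add_one ((x : ℝ) / 2)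
  set k := ⌊(x : ℝ) / 2⌋₊ with hk
  rcases lt_or_ge k M with hkM | hkM
  · rcases le_total (x : ℝ) (2 * k + 1) with h | h
    · exact Or.inl ⟨⟨k, hkM⟩, by constructor <;> simp only <;> linarith⟩
    · exact Or.inr ⟨⟨k, hkM⟩, by constructor <;> simp only <;> linarith⟩
  · right
    have h3 : (M : ℝ) ≤ k := by exact_mod_cast hkM
    have h4 := x.2.2
    have h5 : (((M - 1 : ℕ) : ℝ)) = M - 1 := by
      rw [Nat.cast_sub hM]
      simp
    refine ⟨⟨M - 1, by omega⟩, ?_, ?_⟩
    · simp only [h5]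
      linarith
    · simp only [h5]
      linarith

theorem block_disj (r : ℝ) (i i' : Fin M) (x : XX M) (h : x ∈ block M r i)
    (h' : x ∈ block M r i') : i = i' := by
  by_contra hne
  have hne' : (i : ℕ) ≠ i' := fun e => hne (Fin.ext e)
  rcases cast_cases hne' with h1 | h1
  · linarith [h.2, h'.1]
  · linarith [h.1, h'.2]

/-- cyclic successor -/
def nxt (k : Fin M) : Fin M := ⟨((k : ℕ) + 1) % M, Nat.mod_lt _ k.pos⟩

theorem nxt_iterate (n : ℕ) (k : Fin M) : ((nxt^[n] k : Fin M) : ℕ) = ((k : ℕ) + n) % M := by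
  induction n with
  | zero => simp [Nat.mod_eq_of_lt k.2]
  | succ n ih =>
    rw [iterate_succ_apply']
    change (((nxt^[n] k : Fin M) : ℕ) + 1) % M = _
    rw [ih, Nat.mod_add_mod, add_assoc]

theorem dvd_of_iterate {n : ℕ} {k : Fin M} (h : nxt^[n] k = k) : M ∣ n := by
  have h1 := nxt_iterate n k
  rw [h] at h1
  have h2 : ((k : ℕ) + n) ≡ (k : ℕ) + 0 [MOD M] := by
    unfold Nat.ModEq
    rw [← h1, add_zero, Nat.mod_eq_of_lt k.2]
  exact (Nat.modEq_zero_iff_dvd).1 (Nat.ModEq.add_left_cancel' _ h2)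

theorem branch_mem_block {s : ℝ} (hs : s = 0 ∨ s = 1) (k : Fin M) (y : XX M) :
    branch M s hs k y ∈ block M s k := by
  have := branch_bounds s hs k y
  constructor <;> linarith [this.1, this.2]

theorem dvd_of_periodic {r : ℝ} (f : XX M → XX M) (hf : ∀ k, ∀ x ∈ block M r k,
    f x ∈ block M r (nxt k)) {x : XX M} {k : Fin M} (hx : x ∈ block M r k) {n : ℕ}
    (h : f^[n] x = x) : M ∣ n := by
  have h1 : ∀ n, f^[n] x ∈ block M r (nxt^[n] k) := by
    intro n
    induction n with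
    | zero => exact hx
    | succ n ih =>
      rw [iterate_succ_apply', iterate_succ_apply']
      exact hf _ _ ih
  have h2 := h1 n
  rw [h] at h2
  exact dvd_of_iterate (block_disj r _ _ x h2 hx)

/-- The maps on `[0, 2M]`. -/
theorem exists_pair (hM : 0 < M) : ∃ f g : C(XX M, XX M), (∀ x, f (g x) = g (f x)) ∧
    (∀ k, ∀ x ∈ block M 1 k, f x ∈ block M 1 (nxt k)) ∧
    ∀ k, ∀ x ∈ block M 0 k, g x ∈ block M 0 (nxt k) := by
  have s0 : (0 : ℝ) = 0 ∨ (0 : ℝ) = 1 := Or.inl rfl
  have s1 : (1 : ℝ) = 0 ∨ (1 : ℝ) = 1 := Or.inr rfl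
  have sf : ((0 : ℝ) = 0 ∧ (1 : ℝ) = 1) ∨ ((0 : ℝ) = 1 ∧ (1 : ℝ) = 0) := Or.inl ⟨rfl, rfl⟩
  have sg : ((1 : ℝ) = 0 ∧ (0 : ℝ) = 1) ∨ ((1 : ℝ) = 1 ∧ (0 : ℝ) = 0) := Or.inr ⟨rfl, rfl⟩
  let z : XX M := ⟨0, le_rfl, L_nonneg M⟩
  let v : ℕ → ℝ := fun j => if h : j < M then (branch M 1 s1 (nxt ⟨j, h⟩) z : ℝ) else 0
  let w : ℕ → ℝ := fun j => if h : j < M then (branch M 0 s0 (nxt ⟨j, h⟩) z : ℝ) else 0
  have hv : ∀ k : Fin M, v k = branch M 1 s1 (nxt k) z := fun k => dif_pos k.2
  have hw : ∀ k : Fin M, w k = branch M 0 s0 (nxt k) z := fun k => dif_pos k.2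
  let f0 : C(XX M, XX M) := mapH M 0 1 v
  let g0 : C(XX M, XX M) := mapH M 1 0 w
  have f0A : ∀ k y, f0 (branch M 0 s0 k y) = y := fun k y => mapH_branch sf s0 v k y
  have g0B : ∀ k y, g0 (branch M 1 s1 k y) = y := fun k y => mapH_branch sg s1 w k y
  have f0B : ∀ k, ∀ x ∈ block M 1 k, f0 x = branch M 1 s1 (nxt k) z :=
    fun k x hx => mapH_block sf v k _ (hv k) hx
  have g0A : ∀ k, ∀ x ∈ block M 0 k, g0 x = branch M 0 s0 (nxt k) z :=
    fun k x hx => mapH_block sg w k _ (hw k) hx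
  have hK : (1 / 6 : NNReal) < 1 := by
    rw [div_lt_one (by norm_num)]
    norm_num
  obtain ⟨g, hgB, hgA⟩ := exists_glue (block M 0) (block M 1) (block_closed 0) (block_closed 1)
    (block_cover hM) (block_disj 0) f0 g0 (fun k => branch M 0 s0 (nxt k)) (1 / 6) hK
    (fun k => branch_lip 0 s0 (nxt k))
    (fun i j x _ hj => ⟨nxt j, by rw [f0B j x hj]; exact branch_mem_block s1 _ _⟩)
    (fun i j x hi hj => by rw [f0B j x hj, g0B, g0A i x hi])
  obtain ⟨f, hfA, hfB⟩ := exists_glue (block M 1) (block M 0) (block_closed 1) (block_closed 0)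
    (fun x => (block_cover hM x).symm) (block_disj 1) g0 f0 (fun k => branch M 1 s1 (nxt k))
    (1 / 6) hK (fun k => branch_lip 1 s1 (nxt k))
    (fun i j x _ hj => ⟨nxt j, by rw [g0A j x hj]; exact branch_mem_block s0 _ _⟩)
    (fun i j x hi hj => by rw [g0A j x hj, f0A, f0B i x hi])
  refine ⟨f, g, ?_, ?_, ?_⟩
  · intro x
    rcases block_cover hM x with ⟨i, hi⟩ | ⟨j, hj⟩
    · rw [hgA i x hi, hfA _ _ (branch_mem_block s0 _ _), f0A, hfA i x hi]
    · rw [hfB j x hj, hgB _ _ (branch_mem_block s1 _ _), g0B, hgB j x hj]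
  · intro k x hx
    rw [hfB k x hx]
    exact branch_mem_block s1 _ _
  · intro k x hx
    rw [hgA k x hx]
    exact branch_mem_block s0 _ _

/-- For every `M ≥ 1` there are commuting continuous maps `f, g` of `[0, 1]` such that `M` divides
the least `f`-period or the least `g`-period of every common periodic point; the same holds for the
triangular maps `(x, y) ↦ (f x, y)`, `(x, y) ↦ (g x, y)` of the square. -/
theorem result : ∀ M : ℕ, 0 < M →
    ∃ f g : unitInterval → unitInterval, Continuous f ∧ Continuous g ∧ f ∘ g = g ∘ f ∧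
      (∀ x ∈ periodicPts f ∩ periodicPts g, M ∣ minimalPeriod f x ∨ M ∣ minimalPeriod g x) ∧
      ∀ F G : unitInterval × unitInterval → unitInterval × unitInterval,
        F = (fun p => (f p.1, p.2)) → G = (fun p => (g p.1, p.2)) →
        ∀ p ∈ periodicPts F ∩ periodicPts G, M ∣ minimalPeriod F p ∨ M ∣ minimalPeriod G p := by
  intro M hM
  obtain ⟨f, g, hc, hf, hg⟩ := exists_pair hM
  have hL : (0 : ℝ) < 2 * M := by
    have : (0 : ℝ) < M := by exact_mod_cast hM
    positivity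
  let e : XX M ≃ₜ unitInterval := iccHomeoI 0 (2 * M : ℝ) hL
  have key : ∀ (h : XX M → XX M) (r : ℝ), (∀ k, ∀ x ∈ block M r k, h x ∈ block M r (nxt k)) →
      ∀ (x : unitInterval) (k : Fin M), e.symm x ∈ block M r k → ∀ n,
        (fun y => e (h (e.symm y)))^[n] x = x → M ∣ n := by
    intro h r hh x k hx n hn
    have h1 : Semiconj e.symm (fun y => e (h (e.symm y))) h := fun y => by simp
    have h2 := (h1.iterate_right n).eq x
    rw [hn] at h2
    exact dvd_of_periodic h hh hx h2.symm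
  have keyf := key f 1 hf
  have keyg := key g 0 hg
  have hit : ∀ (h : unitInterval → unitInterval) (p : unitInterval × unitInterval) (n : ℕ),
      ((fun p : unitInterval × unitInterval => (h p.1, p.2))^[n] p).1 = h^[n] p.1 := by
    intro h p n
    have h1 : Semiconj Prod.fst (fun p : unitInterval × unitInterval => (h p.1, p.2)) h :=
      fun _ => rfl
    exact (h1.iterate_right n).eq p
  refine ⟨fun y => e (f (e.symm y)), fun y => e (g (e.symm y)), ?_, ?_, ?_, ?_, ?_⟩
  · exact e.continuous.comp (f.continuous.comp e.symm.continuous)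
  · exact e.continuous.comp (g.continuous.comp e.symm.continuous)
  · ext y
    simp [hc]
  · intro x _
    rcases block_cover hM (e.symm x) with ⟨k, hk⟩ | ⟨k, hk⟩
    · exact Or.inr (keyg x k hk _ (isPeriodicPt_minimalPeriod _ x))
    · exact Or.inl (keyf x k hk _ (isPeriodicPt_minimalPeriod _ x))
  · rintro F G rfl rfl p _
    rcases block_cover hM (e.symm p.1) with ⟨k, hk⟩ | ⟨k, hk⟩
    · right
      refine keyg p.1 k hk _ ?_
      rw [← hit]
      exact congrArg Prod.fst (isPeriodicPt_minimalPeriod _ p)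
    · left
      refine keyf p.1 k hk _ ?_
      rw [← hit]
      exact congrArg Prod.fst (isPeriodicPt_minimalPeriod _ p)

end

end Pool.Agent.Lib.helper47.NoBoundOnPeriods
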